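import Mathlib

/-!
# The three sum-of-squares certificates for the invariant quadratic cone
-/

set_option autoImplicit false

namespace H16Col

/-- the core quadratic form, variables `a_0, b_1, a_1` -/
noncomputable def Wf (x y z : ℝ) : ℝ :=
  8 / 5 * x ^ 2 + 227 / 100 * y ^ 2 + 127 / 100 * z ^ 2 + 157 / 50 * x * y + 16 / 25 * x * z
    + 31 / 25 * y * z

theorem cert_C (a0 b1 a1 b2 : ℝ) :
    0 ≤ Wf a0 b1 a1 - Wf (a0 + b1) ((a1 - a0) / 2) ((b2 - b1) / 2) + 3 / 5 * (b2 ^ 2 - a1 ^ 2) := by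
  have h : Wf a0 b1 a1 - Wf (a0 + b1) ((a1 - a0) / 2) ((b2 - b1) / 2) + 3 / 5 * (b2 ^ 2 - a1 ^ 2) =
      2003 / 2000 * (a0 + 7589 / 10000 * b1 + 1023 / 10000 * a1 - 1 / 200 * b2) ^ 2
      + 9477 / 100000 * (b1 - 9263 / 10000 * a1 + 851 / 500 * b2) ^ 2
      + 969 / 100000 * (a1 - 2619 / 5000 * b2) ^ 2
      + 429 / 100000 * (b2) ^ 2
      + 767 / 20000000 * (a0 - b1) ^ 2
      + 931 / 20000000 * (a0 + a1) ^ 2
      + 3 / 400000 * (a0 + b2) ^ 2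
      + 6705559 / 200000000000 * (b1 + a1) ^ 2
      + 6607 / 4000000000 * (b1 + b2) ^ 2
      + 318287 / 250000000000 * (a1 - b2) ^ 2
      + 2269 / 2500000 * a0 ^ 2
      + 10792083 / 12500000000 * b1 ^ 2
      + 9319978607 / 10000000000000 * a1 ^ 2
      + 154033081 / 156250000000 * b2 ^ 2 := by
    unfold Wf; ring
  rw [h]; positivity

/-- rational approximation of `c - F` -/
noncomputable def Lr (a0 b1 a1 b2 a2 : ℝ) : ℝ :=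
  1509 / 2500 * a0 + 1 / 2 * b1 + 2071 / 10000 * a1 + 429 / 5000 * b2 + 71 / 2000 * a2

/-- rational approximation of `G - g_1 + F` -/
noncomputable def Zr (a0 b1 a1 b2 a2 : ℝ) : ℝ :=
  259 / 2500 * a0 - 429 / 5000 * b1 + 71 / 2000 * a1 - 147 / 10000 * b2 + 61 / 10000 * a2

theorem cert_F (a0 b1 a1 b2 a2 : ℝ) :
    0 ≤ Wf a0 b1 a1 + 6 / 5 * (b2 ^ 2 + a2 ^ 2) - 251 / 250 * Lr a0 b1 a1 b2 a2 ^ 2
      - 251 / 500000 * (a0 ^ 2 + b1 ^ 2 + a1 ^ 2 + b2 ^ 2 + a2 ^ 2) := by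
  have h : Wf a0 b1 a1 + 6 / 5 * (b2 ^ 2 + a2 ^ 2) - 251 / 250 * Lr a0 b1 a1 b2 a2 ^ 2
      - 251 / 500000 * (a0 ^ 2 + b1 ^ 2 + a1 ^ 2 + b2 ^ 2 + a2 ^ 2) =
      11337 / 10000 * (a0 + 559 / 500 * b1 + 43 / 250 * a1 - 23 / 500 * b2 - 19 / 1000 * a2) ^ 2
      + 2513 / 5000 * (b1 + 297 / 500 * a1 + 3 / 100 * b2 + 3 / 250 * a2) ^ 2
      + 2289 / 2500 * (a1 - 1 / 50 * b2 - 1 / 125 * a2) ^ 2
      + 10889 / 10000 * (b2 - 1 / 250 * a2) ^ 2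
      + 10977 / 10000 * (a2) ^ 2
      + 2419 / 5000000 * (a0 - b1) ^ 2
      + 3137389 / 6250000000 * (a0 - a1) ^ 2
      + 120441 / 781250000 * (a0 + b2) ^ 2
      + 16743 / 625000000 * (a0 + a2) ^ 2
      + 643219 / 1250000000 * (b1 - a1) ^ 2
      + 385809 / 2500000000 * (b1 + b2) ^ 2
      + 1149277 / 5000000000 * (b1 + a2) ^ 2
      + 6065571 / 12500000000 * (a1 + b2) ^ 2
      + 328703 / 5000000000 * (a1 + a2) ^ 2
      + 103847 / 5000000000 * (b2 - a2) ^ 2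
      + 617756079 / 6250000000 * a0 ^ 2
      + 97476607 / 1000000000 * b1 ^ 2
      + 307480407 / 3125000000 * a1 ^ 2
      + 2479373027 / 25000000000 * b2 ^ 2
      + 996318939 / 10000000000 * a2 ^ 2 := by
    unfold Wf Lr; ring
  rw [h]; positivity

theorem cert_T (a0 b1 a1 b2 a2 : ℝ) :
    0 ≤ Wf a0 b1 a1 + 6 / 5 * (b2 ^ 2 + a2 ^ 2) - 251 / 250 * (Lr a0 b1 a1 b2 a2 + a0 / 8) ^ 2
      - 251 / 500000 * (a0 ^ 2 + b1 ^ 2 + a1 ^ 2 + b2 ^ 2 + a2 ^ 2) := by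
  have h : Wf a0 b1 a1 + 6 / 5 * (b2 ^ 2 + a2 ^ 2) - 251 / 250 * (Lr a0 b1 a1 b2 a2 + a0 / 8) ^ 2
      - 251 / 500000 * (a0 ^ 2 + b1 ^ 2 + a1 ^ 2 + b2 ^ 2 + a2 ^ 2) =
      1933 / 2000 * (a0 + 623 / 500 * b1 + 87 / 500 * a1 - 13 / 200 * b2 - 27 / 1000 * a2) ^ 2
      + 4181 / 10000 * (b1 + 183 / 250 * a1 + 21 / 250 * b2 + 7 / 200 * a2) ^ 2
      + 873 / 1000 * (a1 - 37 / 1000 * b2 - 3 / 200 * a2) ^ 2
      + 10839 / 10000 * (b2 - 3 / 500 * a2) ^ 2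
      + 1371 / 1250 * (a2) ^ 2
      + 81 / 5000000 * (a0 - b1) ^ 2
      + 4154597 / 12500000000 * (a0 + a1) ^ 2
      + 91507 / 1562500000 * (a0 + b2) ^ 2
      + 316847 / 2500000000 * (a0 + a2) ^ 2
      + 222767 / 500000000 * (b1 + a1) ^ 2
      + 16967 / 200000000 * (b1 + b2) ^ 2
      + 60493 / 1000000000 * (b1 + a2) ^ 2
      + 7906863 / 25000000000 * (a1 - b2) ^ 2
      + 285977 / 625000000 * (a1 - a2) ^ 2
      + 353799 / 10000000000 * (b2 + a2) ^ 2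
      + 621767107 / 6250000000 * a0 ^ 2
      + 387829 / 3906250 * b1 ^ 2
      + 616215753 / 6250000000 * a1 ^ 2
      + 2487078661 / 25000000000 * b2 ^ 2
      + 993003377 / 10000000000 * a2 ^ 2 := by
    unfold Wf Lr; ring
  rw [h]; positivity

theorem cert_main (F a0 a1 a2 b1 b2 g1 g2 g3 F' a0' a1' a2' b1' b2' c0 cp G0 Gp : ℝ)
    (hF : F' = 2 * F - a0 / 4) (ha0 : a0' = 4 * F - a0 - g1) (ha1 : a1' = (g1 + g2) / 2)
    (ha2 : a2' = -(g2 + g3) / 2) (hb1 : b1' = (a1 + a0) / 2 - 2 * F) (hb2 : b2' = -(a2 + a1) / 2)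
    (hc0 : c0 = F + Lr a0 b1 a1 b2 a2) (hcp : cp = F' + Lr a0' b1' a1' b2' a2')
    (hG0 : G0 = g1 - F + Zr a0 b1 a1 b2 a2) (hGp : Gp = 2 * F + b1 - F' + Zr a0' b1' a1' b2' a2') :
    0 ≤ 249 / 250 * cp ^ 2 - 251 / 125 * c0 ^ 2
      - Wf a0' b1' a1' + 2 * Wf a0 b1 a1 - 251 / 250 * Gp ^ 2 + 249 / 125 * G0 ^ 2
      - 6 / 5 * (b2' ^ 2 + a2' ^ 2) + 12 / 5 * (b2 ^ 2 + a2 ^ 2) - 4 / 5 * b2 ^ 2
      + 8 / 5 * (g2 ^ 2 + g3 ^ 2) - 63487 / 100000 * (g3 ^ 2 + a2 ^ 2)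
      - 1 / 500 * (a0 ^ 2 + b1 ^ 2 + a1 ^ 2 + b2 ^ 2 + a2 ^ 2)
      - 1 / 1000 * (a0' ^ 2 + b1' ^ 2 + a1' ^ 2 + b2' ^ 2 + a2' ^ 2) := by
  have h : 249 / 250 * cp ^ 2 - 251 / 125 * c0 ^ 2
      - Wf a0' b1' a1' + 2 * Wf a0 b1 a1 - 251 / 250 * Gp ^ 2 + 249 / 125 * G0 ^ 2
      - 6 / 5 * (b2' ^ 2 + a2' ^ 2) + 12 / 5 * (b2 ^ 2 + a2 ^ 2) - 4 / 5 * b2 ^ 2
      + 8 / 5 * (g2 ^ 2 + g3 ^ 2) - 63487 / 100000 * (g3 ^ 2 + a2 ^ 2)
      - 1 / 500 * (a0 ^ 2 + b1 ^ 2 + a1 ^ 2 + b2 ^ 2 + a2 ^ 2)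
      - 1 / 1000 * (a0' ^ 2 + b1' ^ 2 + a1' ^ 2 + b2' ^ 2 + a2' ^ 2) =
      16207 / 10000 * (F - 351 / 500 * a0 - 389 / 1000 * a1 - 18 / 125 * a2 - 877 / 1000 * b1 - 11 / 125 * b2 - 123 / 500 * g1 + 81 / 500 * g2 - 9 / 250 * g3) ^ 2
      + 2787 / 2000 * (a0 + 9 / 250 * a1 - 13 / 100 * a2 + 127 / 125 * b1 - 149 / 1000 * b2 - 103 / 250 * g1 + 49 / 500 * g2 - 11 / 500 * g3) ^ 2
      + 3327 / 2500 * (a1 - 153 / 500 * a2 + 43 / 125 * b1 - 8 / 125 * b2 + 173 / 500 * g1 - 3 / 100 * g2 - 19 / 1000 * g3) ^ 2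
      + 12303 / 10000 * (a2 + 61 / 1000 * b1 - 13 / 200 * b2 + 7 / 200 * g1 + 4 / 125 * g2 - 2 / 125 * g3) ^ 2
      + 151 / 1000 * (b1 + 47 / 200 * b2 - 19 / 250 * g1 + 293 / 500 * g2 - 13 / 250 * g3) ^ 2
      + 14713 / 10000 * (b2 - 39 / 500 * g1 + 3 / 200 * g2 - 7 / 1000 * g3) ^ 2
      + 797 / 10000 * (g1 - 361 / 500 * g2 - 127 / 1000 * g3) ^ 2
      + 7867 / 10000 * (g2 - 371 / 1000 * g3) ^ 2
      + 1003 / 2000 * (g3) ^ 2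
      + 4685521 / 6250000000 * (F + a0) ^ 2
      + 1111003 / 12500000000 * (F + a1) ^ 2
      + 3382217 / 12500000000 * (F - a2) ^ 2
      + 153 / 2000000 * (F - b1) ^ 2
      + 239 / 625000 * (F - b2) ^ 2
      + 8253691 / 12500000000 * (F + g1) ^ 2
      + 3635257 / 6250000000 * (F + g2) ^ 2
      + 558821 / 2500000000 * (F - g3) ^ 2
      + 505173 / 50000000000 * (a0 + a1) ^ 2
      + 29030733 / 50000000000 * (a0 + a2) ^ 2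
      + 30537169 / 25000000000 * (a0 - b1) ^ 2
      + 3033807 / 6250000000 * (a0 + b2) ^ 2
      + 42242411 / 50000000000 * (a0 - g1) ^ 2
      + 8994337 / 25000000000 * (a0 - g2) ^ 2
      + 6866517 / 10000000000 * (a0 + g3) ^ 2
      + 20701397 / 100000000000 * (a1 - a2) ^ 2
      + 258441 / 10000000000 * (a1 + b1) ^ 2
      + 2788081 / 6250000000 * (a1 + b2) ^ 2
      + 1495851 / 4000000000 * (a1 - g1) ^ 2
      + 18189161 / 50000000000 * (a1 + g2) ^ 2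
      + 7761291 / 100000000000 * (a1 - g3) ^ 2
      + 1098677 / 3125000000 * (a2 + b1) ^ 2
      + 2067939 / 25000000000 * (a2 + b2) ^ 2
      + 5719809 / 100000000000 * (a2 - g1) ^ 2
      + 1999617 / 10000000000 * (a2 + g2) ^ 2
      + 34134627 / 100000000000 * (a2 + g3) ^ 2
      + 46786151 / 50000000000 * (b1 + b2) ^ 2
      + 6131371 / 10000000000 * (b1 - g1) ^ 2
      + 2005829 / 5000000000 * (b1 - g2) ^ 2
      + 1979633 / 2500000000 * (b1 + g3) ^ 2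
      + 1850639 / 10000000000 * (b2 - g1) ^ 2
      + 2963821 / 5000000000 * (b2 + g2) ^ 2
      + 2278577 / 5000000000 * (b2 - g3) ^ 2
      + 3099377 / 50000000000 * (g1 + g2) ^ 2
      + 6166093 / 25000000000 * (g1 - g3) ^ 2
      + 2018279 / 25000000000 * (g2 - g3) ^ 2
      + 58739701 / 1250000000 * F ^ 2
      + 550549853 / 12500000000 * a0 ^ 2
      + 2419562553 / 50000000000 * a1 ^ 2
      + 600544623 / 12500000000 * a2 ^ 2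
      + 2210574943 / 50000000000 * b1 ^ 2
      + 115766621 / 2500000000 * b2 ^ 2
      + 234458409 / 5000000000 * g1 ^ 2
      + 1191722139 / 25000000000 * g2 ^ 2
      + 294762933 / 6250000000 * g3 ^ 2 := by
    subst hc0 hcp hG0 hGp hF ha0 ha1 ha2 hb1 hb2
    unfold Wf Lr Zr; ring
  rw [h]; positivity

end H16Col
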