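import Mathlib

/-!
# Scalar dynamics of the second 2-dependent 3-colouring

State `(F; a_0,a_1,..; b_1,b_2,..; g_1,g_2,..)`.  `stC` = continue the alternation
(new letter = previous letter), `stT` = turn (new letter = third letter).
Dictionary with the three-leg vector `v` after the (leftmost) letter `x`, previous letter `y`,
third letter `z`, `σ = 1` if `y = x + 1` and `σ = -1` if `y = x + 2`:
`α_j = v x (2j) = v x (2j-1)`, `β_j = v y (2j)`, `v y (2j+1) = σ β_j`, `γ_j = v z (2j)`,
`v z (2j+1) = -σ γ_j`;
`F = β_0 + γ_0`, `a_0 = 4 β_0 + 2 σ α_1`, `a_j = (-1)^j σ^(j-1) α_(j+1)` (`j ≥ 1`),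
`b_1 = σ β_1 - β_0`, `b_j = σ^j β_j` (`j ≥ 2`), `g_1 = γ_0 + σ γ_1`, `g_j = σ^j γ_j` (`j ≥ 2`).
-/

set_option autoImplicit false

namespace H16Col

/-- a state of the scalar dynamics -/
structure St where
  F : ℝ
  a : ℕ → ℝ
  b : ℕ → ℝ
  g : ℕ → ℝ

/-- continue the alternation -/
noncomputable def stC (s : St) : St where
  F := s.F + s.a 0 / 4
  a := fun j => if j = 0 then s.a 0 + s.b 1 else (s.b (j + 1) - s.b j) / 2
  b := fun j => if j = 0 then 0 else (s.a j - s.a (j - 1)) / 2
  g := fun j => if j = 0 then 0 else (-1) ^ j * s.g j + (if j = 1 then 2 * s.F else 0)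

/-- turn -/
noncomputable def stT (s : St) : St where
  F := 2 * s.F - s.a 0 / 4
  a := fun j => if j = 0 then 4 * s.F - s.a 0 - s.g 1 else -(-1) ^ j * (s.g j + s.g (j + 1)) / 2
  b := fun j => if j = 0 then 0 else
    -(-1) ^ j * (s.a j + s.a (j - 1)) / 2 - (if j = 1 then 2 * s.F else 0)
  g := fun j => if j = 0 then 0 else s.b j + (if j = 1 then 2 * s.F else 0)

/-- the state after one letter -/
noncomputable def st0 : St where
  F := 9
  a := fun j => if j = 0 then 18 else if j = 1 then 2 else 0
  b := fun j => if j = 1 then -13 / 2 else if j = 2 then -1 / 2 else 0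
  g := fun j => if j = 1 then 13 / 2 else if j = 2 then -1 / 2 else 0

/-- run a code (head applied last); `true` = turn -/
noncomputable def run : List Bool → St
  | [] => st0
  | false :: l => stC (run l)
  | true :: l => stT (run l)

end H16Col
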