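import Pool.Agent.H16.Col.Dyn
import Pool.Agent.H16.Col.Cert

/-!
# Positivity of the scalar dynamics: an invariant quadratic cone
-/

set_option autoImplicit false

namespace H16Col

open Finset

noncomputable section

/-- `τ = √2 - 1` -/
def tau : ℝ := Real.sqrt 2 - 1
/-- `q = τ ^ 2` -/
def qq : ℝ := tau ^ 2

theorem sqrt2_sq : Real.sqrt 2 ^ 2 = 2 := Real.sq_sqrt (by norm_num)
theorem sqrt2_lo : (1.414213 : ℝ) < Real.sqrt 2 := by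
  rw [Real.lt_sqrt (by norm_num)]; norm_num
theorem sqrt2_hi : Real.sqrt 2 < (1.414214 : ℝ) := by
  rw [Real.sqrt_lt' (by norm_num)]; norm_num
theorem tau_lo : (0.414213 : ℝ) < tau := by unfold tau; linarith [sqrt2_lo]
theorem tau_hi : tau < (0.414214 : ℝ) := by unfold tau; linarith [sqrt2_hi]
theorem tau_sq : tau ^ 2 = 1 - 2 * tau := by
  unfold tau; ring_nf; rw [sqrt2_sq]; ring
theorem qq_eq : qq = 1 - 2 * tau := tau_sq

def SX (x : ℕ → ℝ) (N : ℕ) : ℝ := ∑ j ∈ range (N + 2), qq ^ j * x (j + 1)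
def EX (x : ℕ → ℝ) (N : ℕ) : ℝ := ∑ j ∈ range (N + 1), x (j + 2) ^ 2
def E3 (x : ℕ → ℝ) (N : ℕ) : ℝ := ∑ j ∈ range N, x (j + 3) ^ 2
def TX (x : ℕ → ℝ) (N : ℕ) : ℝ := ∑ j ∈ range N, qq ^ j * x (j + 3)

/-- `c - F` -/
def Lc (s : St) (N : ℕ) : ℝ := (2 + tau) / 4 * s.a 0 + (SX s.b N + tau * SX s.a N) / 2
/-- `G - g_1 + F` -/
def Zc (s : St) (N : ℕ) : ℝ := tau / 4 * s.a 0 + qq * (tau * SX s.a N - SX s.b N) / 2
def cc (s : St) (N : ℕ) : ℝ := s.F + Lc s N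
def GG (s : St) (N : ℕ) : ℝ := s.g 1 - s.F + Zc s N

/-- the quadratic form -/
def QQ (s : St) (N : ℕ) : ℝ :=
  cc s N ^ 2 - Wf (s.a 0) (s.b 1) (s.a 1) - 6 / 5 * (EX s.a N + EX s.b N) - GG s N ^ 2
    - 4 / 5 * EX s.g N

/-- support bound -/
def Supp (s : St) (M : ℕ) : Prop := ∀ j, M ≤ j → s.a j = 0 ∧ s.b j = 0 ∧ s.g j = 0

theorem SX_split (x : ℕ → ℝ) (N : ℕ) : SX x N = x 1 + qq * x 2 + qq ^ 2 * TX x N := by
  unfold SX TX
  rw [Finset.sum_range_succ', Finset.sum_range_succ', Finset.mul_sum]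
  have : ∀ j, qq ^ (j + 1 + 1) * x (j + 1 + 1 + 1) = qq ^ 2 * (qq ^ j * x (j + 3)) := fun j => by
    ring_nf
  simp only [this]
  simp
  ring

theorem EX_split (x : ℕ → ℝ) (N : ℕ) : EX x N = x 2 ^ 2 + E3 x N := by
  unfold EX E3
  rw [Finset.sum_range_succ']
  ring

theorem E3_nonneg (x : ℕ → ℝ) (N : ℕ) : 0 ≤ E3 x N := Finset.sum_nonneg fun _ _ => sq_nonneg _
theorem EX_nonneg (x : ℕ → ℝ) (N : ℕ) : 0 ≤ EX x N := Finset.sum_nonneg fun _ _ => sq_nonneg _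

theorem sq_avg (x : ℕ → ℝ) (n : ℕ) :
    ∑ j ∈ range n, ((x j + x (j + 1)) / 2) ^ 2
      ≤ ∑ j ∈ range n, x j ^ 2 + (x n ^ 2 - x 0 ^ 2) / 2 := by
  induction n with
  | zero => simp
  | succ n ih =>
    rw [Finset.sum_range_succ, Finset.sum_range_succ]
    nlinarith [sq_nonneg (x n - x (n + 1))]

theorem sq_dif (x : ℕ → ℝ) (n : ℕ) :
    ∑ j ∈ range n, ((x (j + 1) - x j) / 2) ^ 2
      ≤ ∑ j ∈ range n, x j ^ 2 + (x n ^ 2 - x 0 ^ 2) / 2 := by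
  induction n with
  | zero => simp
  | succ n ih =>
    rw [Finset.sum_range_succ, Finset.sum_range_succ]
    nlinarith [sq_nonneg (x n + x (n + 1))]

theorem TX_sq (x : ℕ → ℝ) (N : ℕ) : TX x N ^ 2 ≤ 1.0304 * E3 x N := by
  unfold TX E3
  have h1 := Finset.sum_mul_sq_le_sq_mul_sq (range N) (fun j => qq ^ j) (fun j => x (j + 3))
  have h2 : ∑ j ∈ range N, (qq ^ j) ^ 2 ≤ 1.0304 := by
    have h3 : ∀ j, (qq ^ j) ^ 2 = (qq ^ 2) ^ j := fun j => by ring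
    simp only [h3]
    have h4 := mul_neg_geom_sum (qq ^ 2) N
    have hq1 : qq < 0.171574 := by rw [qq_eq]; linarith [tau_lo]
    have hq0 : 0 < qq := by rw [qq_eq]; linarith [tau_hi]
    have h5 : 0 ≤ (qq ^ 2) ^ N := by positivity
    have h6 : qq ^ 2 < 0.02944 := by nlinarith
    have h7 : 0 ≤ ∑ j ∈ range N, (qq ^ 2) ^ j := Finset.sum_nonneg fun _ _ => by positivity
    nlinarith
  have h8 : 0 ≤ ∑ j ∈ range N, x (j + 3) ^ 2 := Finset.sum_nonneg fun _ _ => sq_nonneg _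
  calc _ ≤ _ := h1
    _ ≤ _ := mul_le_mul_of_nonneg_right h2 h8

theorem qq_pos : 0 < qq := by rw [qq_eq]; linarith [tau_hi]
theorem qq_lo : (0.171572 : ℝ) ≤ qq := by rw [qq_eq]; linarith [tau_hi]
theorem qq_hi : qq ≤ (0.171574 : ℝ) := by rw [qq_eq]; linarith [tau_lo]

theorem lin5 (d0 d1 d2 d3 d4 x0 x1 x2 x3 x4 : ℝ) (h0 : |d0| ≤ 0.00005) (h1 : |d1| ≤ 0.00005)
    (h2 : |d2| ≤ 0.00005) (h3 : |d3| ≤ 0.00005) (h4 : |d4| ≤ 0.00005) :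
    (d0 * x0 + d1 * x1 + d2 * x2 + d3 * x3 + d4 * x4) ^ 2 ≤
      0.0000000125 * (x0 ^ 2 + x1 ^ 2 + x2 ^ 2 + x3 ^ 2 + x4 ^ 2) := by
  have k : ∀ d : ℝ, |d| ≤ 0.00005 → d ^ 2 ≤ 0.0000000025 := fun d hd => by
    have := sq_le_sq' (abs_le.mp hd).1 (abs_le.mp hd).2
    norm_num at this ⊢
    linarith
  have k0 := mul_le_mul_of_nonneg_right (k _ h0) (sq_nonneg x0)
  have k1 := mul_le_mul_of_nonneg_right (k _ h1) (sq_nonneg x1)
  have k2 := mul_le_mul_of_nonneg_right (k _ h2) (sq_nonneg x2)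
  have k3 := mul_le_mul_of_nonneg_right (k _ h3) (sq_nonneg x3)
  have k4 := mul_le_mul_of_nonneg_right (k _ h4) (sq_nonneg x4)
  have cs : (d0 * x0 + d1 * x1 + d2 * x2 + d3 * x3 + d4 * x4) ^ 2 ≤
      5 * (d0 ^ 2 * x0 ^ 2 + d1 ^ 2 * x1 ^ 2 + d2 ^ 2 * x2 ^ 2 + d3 ^ 2 * x3 ^ 2
        + d4 ^ 2 * x4 ^ 2) := by
    nlinarith [sq_nonneg (d0 * x0 - d1 * x1), sq_nonneg (d0 * x0 - d2 * x2),
      sq_nonneg (d0 * x0 - d3 * x3), sq_nonneg (d0 * x0 - d4 * x4),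
      sq_nonneg (d1 * x1 - d2 * x2), sq_nonneg (d1 * x1 - d3 * x3),
      sq_nonneg (d1 * x1 - d4 * x4), sq_nonneg (d2 * x2 - d3 * x3),
      sq_nonneg (d2 * x2 - d4 * x4), sq_nonneg (d3 * x3 - d4 * x4)]
  linarith

theorem tail_sq (A B EA EB : ℝ) (hA : A ^ 2 ≤ 1.0304 * EA) (hB : B ^ 2 ≤ 1.0304 * EB) :
    (qq ^ 2 * (B + tau * A) / 2) ^ 2 ≤ 0.000262 * (EA + EB) := by
  have h1 : (B + tau * A) ^ 2 ≤ (1 + tau ^ 2) * (A ^ 2 + B ^ 2) := by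
    nlinarith [sq_nonneg (A - tau * B)]
  have h2 : tau ^ 2 ≤ 0.171574 := qq_hi
  have h3 : qq ^ 2 ≤ 0.029438 := by nlinarith [qq_hi, qq_pos]
  have h4 : qq ^ 4 ≤ 0.000866596 := by
    have : qq ^ 4 = qq ^ 2 * qq ^ 2 := by ring
    rw [this]; nlinarith [sq_nonneg qq]
  have h5 : (B + tau * A) ^ 2 ≤ 1.171574 * (A ^ 2 + B ^ 2) := by
    nlinarith [sq_nonneg A, sq_nonneg B]
  have h6 : (B + tau * A) ^ 2 ≤ 1.20719 * (EA + EB) := by nlinarith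
  have h7 : (qq ^ 2 * (B + tau * A) / 2) ^ 2 = qq ^ 4 / 4 * (B + tau * A) ^ 2 := by ring
  rw [h7]
  have h8 : 0 ≤ (B + tau * A) ^ 2 := sq_nonneg _
  have h9 : qq ^ 4 / 4 * (B + tau * A) ^ 2 ≤ 0.000216649 * (B + tau * A) ^ 2 :=
    mul_le_mul_of_nonneg_right (by linarith) h8
  nlinarith

theorem L_err (s : St) (N : ℕ) :
    (Lc s N - Lr (s.a 0) (s.b 1) (s.a 1) (s.b 2) (s.a 2)) ^ 2 ≤
      0.00027 * (E3 s.a N + E3 s.b N)
        + 0.000002 * (s.a 0 ^ 2 + s.b 1 ^ 2 + s.a 1 ^ 2 + s.b 2 ^ 2 + s.a 2 ^ 2) := by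
  have hA := TX_sq s.a N
  have hB := TX_sq s.b N
  have h1 := tail_sq _ _ _ _ hA hB
  set A := TX s.a N
  set B := TX s.b N
  have t1 := tau_lo
  have t2 := tau_hi
  have q1 := qq_lo
  have q2 := qq_hi
  have tq1 : 0.07106 ≤ tau * qq := by nlinarith
  have tq2 : tau * qq ≤ 0.07108 := by nlinarith
  have hx := lin5 ((2 + tau) / 4 - 0.6036) 0 (tau / 2 - 0.2071) (qq / 2 - 0.0858)
    (tau * qq / 2 - 0.0355) (s.a 0) (s.b 1) (s.a 1) (s.b 2) (s.a 2)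
    (by rw [abs_le]; constructor <;> linarith) (by norm_num)
    (by rw [abs_le]; constructor <;> linarith) (by rw [abs_le]; constructor <;> linarith)
    (by rw [abs_le]; constructor <;> linarith)
  have e : Lc s N - Lr (s.a 0) (s.b 1) (s.a 1) (s.b 2) (s.a 2) =
      (((2 + tau) / 4 - 0.6036) * s.a 0 + 0 * s.b 1 + (tau / 2 - 0.2071) * s.a 1
        + (qq / 2 - 0.0858) * s.b 2 + (tau * qq / 2 - 0.0355) * s.a 2)
      + qq ^ 2 * (B + tau * A) / 2 := by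
    unfold Lc Lr
    rw [SX_split, SX_split]
    ring
  rw [e]
  set X := ((2 + tau) / 4 - 0.6036) * s.a 0 + 0 * s.b 1 + (tau / 2 - 0.2071) * s.a 1
        + (qq / 2 - 0.0858) * s.b 2 + (tau * qq / 2 - 0.0355) * s.a 2
  set R := qq ^ 2 * (B + tau * A) / 2
  have h2 : (X + R) ^ 2 ≤ 101 * X ^ 2 + 101 / 100 * R ^ 2 := by
    nlinarith [sq_nonneg (10 * X - R / 10)]
  have h3 := E3_nonneg s.a N
  have h4 := E3_nonneg s.b N
  have h6 := sq_nonneg (s.a 0)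
  have h7 := sq_nonneg (s.b 1)
  have h8 := sq_nonneg (s.a 1)
  have h9 := sq_nonneg (s.b 2)
  have h10 := sq_nonneg (s.a 2)
  linarith

theorem Z_err (s : St) (N : ℕ) :
    (Zc s N - Zr (s.a 0) (s.b 1) (s.a 1) (s.b 2) (s.a 2)) ^ 2 ≤
      0.00001 * (E3 s.a N + E3 s.b N)
        + 0.000002 * (s.a 0 ^ 2 + s.b 1 ^ 2 + s.a 1 ^ 2 + s.b 2 ^ 2 + s.a 2 ^ 2) := by
  have hA := TX_sq s.a N
  have hB := TX_sq s.b N
  have h1 := tail_sq (TX s.a N) (-TX s.b N) _ _ hA (by simpa using hB)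
  set A := TX s.a N
  set B := TX s.b N
  have t1 := tau_lo
  have t2 := tau_hi
  have q1 := qq_lo
  have q2 := qq_hi
  have tq1 : 0.07106 ≤ tau * qq := by nlinarith
  have tq2 : tau * qq ≤ 0.07108 := by nlinarith
  have qs1 : 0.02943 ≤ qq ^ 2 := by nlinarith
  have qs2 : qq ^ 2 ≤ 0.02944 := by nlinarith
  have qt1 : 0.01218 ≤ tau * qq ^ 2 := by nlinarith
  have qt2 : tau * qq ^ 2 ≤ 0.01220 := by nlinarith
  have hx := lin5 (tau / 4 - 0.1036) (-qq / 2 + 0.0858) (tau * qq / 2 - 0.0355)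
    (-qq ^ 2 / 2 + 0.0147) (tau * qq ^ 2 / 2 - 0.0061)
    (s.a 0) (s.b 1) (s.a 1) (s.b 2) (s.a 2)
    (by rw [abs_le]; constructor <;> linarith) (by rw [abs_le]; constructor <;> linarith)
    (by rw [abs_le]; constructor <;> linarith) (by rw [abs_le]; constructor <;> linarith)
    (by rw [abs_le]; constructor <;> linarith)
  have e : Zc s N - Zr (s.a 0) (s.b 1) (s.a 1) (s.b 2) (s.a 2) =
      ((tau / 4 - 0.1036) * s.a 0 + (-qq / 2 + 0.0858) * s.b 1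
        + (tau * qq / 2 - 0.0355) * s.a 1
        + (-qq ^ 2 / 2 + 0.0147) * s.b 2 + (tau * qq ^ 2 / 2 - 0.0061) * s.a 2)
      + qq * (qq ^ 2 * (-B + tau * A) / 2) := by
    unfold Zc Zr
    rw [SX_split, SX_split]
    ring
  rw [e]
  set X := (tau / 4 - 0.1036) * s.a 0 + (-qq / 2 + 0.0858) * s.b 1
        + (tau * qq / 2 - 0.0355) * s.a 1
        + (-qq ^ 2 / 2 + 0.0147) * s.b 2 + (tau * qq ^ 2 / 2 - 0.0061) * s.a 2
  set R := qq ^ 2 * (-B + tau * A) / 2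
  have h2 : (X + qq * R) ^ 2 ≤ 101 * X ^ 2 + 101 / 100 * (qq ^ 2 * R ^ 2) := by
    nlinarith [sq_nonneg (10 * X - qq * R / 10)]
  have h3 := E3_nonneg s.a N
  have h4 := E3_nonneg s.b N
  have h5 : qq ^ 2 * R ^ 2 ≤ 0.02944 * R ^ 2 := mul_le_mul_of_nonneg_right qs2 (sq_nonneg _)
  have h6 := sq_nonneg (s.a 0)
  have h7 := sq_nonneg (s.b 1)
  have h8 := sq_nonneg (s.a 1)
  have h9 := sq_nonneg (s.b 2)
  have h10 := sq_nonneg (s.a 2)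
  linarith

end

end H16Col
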