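import Pool.Agent.H16.Col.Pos

/-!
# Positivity of the scalar dynamics: invariance of the cone
-/

set_option autoImplicit false

namespace H16Col

open Finset

noncomputable section

/-! ### the continue step -/

theorem SX_shift (x : ℕ → ℝ) (N : ℕ) (h : x (N + 3) = 0) :
    qq * ∑ j ∈ range (N + 2), qq ^ j * x (j + 2) = SX x N - x 1 := by
  have h1 : SX x N = ∑ j ∈ range (N + 3), qq ^ j * x (j + 1) := by
    rw [Finset.sum_range_succ, h]; simp [SX]
  have h2 : ∑ j ∈ range (N + 3), qq ^ j * x (j + 1) =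
      ∑ j ∈ range (N + 2), qq ^ (j + 1) * x (j + 1 + 1) + qq ^ 0 * x (0 + 1) :=
    Finset.sum_range_succ' _ _
  have h3 : ∀ j, qq ^ (j + 1) * x (j + 1 + 1) = qq * (qq ^ j * x (j + 2)) := fun j => by ring_nf
  rw [h1, h2, Finset.mul_sum]
  simp only [h3]
  simp

theorem SX_unshift (x : ℕ → ℝ) (N : ℕ) (h : x (N + 2) = 0) :
    ∑ j ∈ range (N + 2), qq ^ j * x j = x 0 + qq * SX x N := by
  have h1 : SX x N = ∑ j ∈ range (N + 1), qq ^ j * x (j + 1) := by
    unfold SX; rw [Finset.sum_range_succ, h]; simp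
  rw [h1, Finset.sum_range_succ', Finset.mul_sum]
  have : ∀ j, qq ^ (j + 1) * x (j + 1) = qq * (qq ^ j * x (j + 1)) := fun j => by ring_nf
  simp only [this]
  simp; ring

theorem SX_C_a (s : St) (N : ℕ) :
    SX (stC s).a N = ((∑ j ∈ range (N + 2), qq ^ j * s.b (j + 2)) - SX s.b N) / 2 := by
  unfold SX
  rw [← Finset.sum_sub_distrib, Finset.sum_div]
  refine Finset.sum_congr rfl fun j _ => ?_
  simp only [stC]
  rw [if_neg (by omega)]
  ring

theorem SX_C_b (s : St) (N : ℕ) :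
    SX (stC s).b N = (SX s.a N - ∑ j ∈ range (N + 2), qq ^ j * s.a j) / 2 := by
  unfold SX
  rw [← Finset.sum_sub_distrib, Finset.sum_div]
  refine Finset.sum_congr rfl fun j _ => ?_
  simp only [stC]
  rw [if_neg (by omega)]
  simp only [Nat.add_sub_cancel]
  ring

theorem cc_C (s : St) (N : ℕ) (h : Supp s (N + 2)) : cc (stC s) N = cc s N := by
  have h1 := SX_shift s.b N (h _ (by omega)).2.1
  have h2 := SX_unshift s.a N (h _ (by omega)).1
  unfold cc Lc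
  rw [SX_C_a, SX_C_b, h2]
  set S := ∑ j ∈ range (N + 2), qq ^ j * s.b (j + 2)
  have hF : (stC s).F = s.F + s.a 0 / 4 := rfl
  have ha : (stC s).a 0 = s.a 0 + s.b 1 := by simp [stC]
  rw [hF, ha]
  have hB : SX s.b N = qq * S + s.b 1 := by linarith
  rw [hB, qq_eq]
  linear_combination (S / 2) * tau_sq

theorem GG_C (s : St) (N : ℕ) (h : Supp s (N + 2)) : GG (stC s) N = -GG s N := by
  have h1 := SX_shift s.b N (h _ (by omega)).2.1
  have h2 := SX_unshift s.a N (h _ (by omega)).1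
  unfold GG Zc
  rw [SX_C_a, SX_C_b, h2]
  set S := ∑ j ∈ range (N + 2), qq ^ j * s.b (j + 2)
  have hF : (stC s).F = s.F + s.a 0 / 4 := rfl
  have ha : (stC s).a 0 = s.a 0 + s.b 1 := by simp [stC]
  have hg : (stC s).g 1 = - s.g 1 + 2 * s.F := by simp [stC]
  rw [hF, ha, hg]
  have hB : SX s.b N = qq * S + s.b 1 := by linarith
  rw [hB, qq_eq]
  linear_combination (s.b 1 / 2 + (1 - 2 * tau) / 2 * S) * tau_sq

theorem EX_C_g (s : St) (N : ℕ) : EX (stC s).g N = EX s.g N := by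
  unfold EX
  refine Finset.sum_congr rfl fun j _ => ?_
  simp only [stC]
  rw [if_neg (by omega), if_neg (by omega), add_zero, mul_pow, ← pow_mul, mul_comm (j + 2) 2,
    pow_mul]
  simp

theorem EX_C_a (s : St) (N : ℕ) (h : Supp s (N + 2)) :
    EX (stC s).a N ≤ EX s.b N - s.b 2 ^ 2 / 2 := by
  have h1 := sq_dif (fun j => s.b (j + 2)) (N + 1)
  have h2 : s.b (N + 1 + 2) = 0 := (h _ (by omega)).2.1
  simp only [h2, zero_add] at h1
  have h3 : EX (stC s).a N = ∑ j ∈ range (N + 1), ((s.b (j + 1 + 2) - s.b (j + 2)) / 2) ^ 2 := by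
    unfold EX
    refine Finset.sum_congr rfl fun j _ => ?_
    simp only [stC]
    rw [if_neg (by omega)]
  rw [h3]
  unfold EX
  linarith

theorem EX_C_b (s : St) (N : ℕ) (h : Supp s (N + 2)) :
    EX (stC s).b N ≤ EX s.a N + s.a 1 ^ 2 / 2 := by
  have h1 := sq_dif (fun j => s.a (j + 1)) (N + 1)
  have h2 : s.a (N + 1 + 1) = 0 := (h _ (by omega)).1
  simp only [h2, zero_add] at h1
  have h3 : EX (stC s).b N = ∑ j ∈ range (N + 1), ((s.a (j + 1 + 1) - s.a (j + 1)) / 2) ^ 2 := by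
    unfold EX
    refine Finset.sum_congr rfl fun j _ => ?_
    simp only [stC]
    rw [if_neg (by omega)]
    simp
  rw [h3]
  have h4 : EX s.a N = ∑ j ∈ range N, s.a (j + 2) ^ 2 := by
    unfold EX
    rw [Finset.sum_range_succ]
    have : s.a (N + 2) = 0 := (h _ (by omega)).1
    rw [this]; simp
  have h5 : ∑ j ∈ range (N + 1), s.a (j + 1) ^ 2 = ∑ j ∈ range N, s.a (j + 2) ^ 2 + s.a 1 ^ 2 := by
    rw [Finset.sum_range_succ']
  rw [h4]
  linarith

theorem QQ_C (s : St) (N : ℕ) (h : Supp s (N + 2)) : QQ s N ≤ QQ (stC s) N := by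
  have h1 := cert_C (s.a 0) (s.b 1) (s.a 1) (s.b 2)
  have h2 := EX_C_a s N h
  have h3 := EX_C_b s N h
  unfold QQ
  rw [cc_C s N h, GG_C s N h, EX_C_g]
  have ha : (stC s).a 0 = s.a 0 + s.b 1 := by simp [stC]
  have hb : (stC s).b 1 = (s.a 1 - s.a 0) / 2 := by simp [stC]
  have ha1 : (stC s).a 1 = (s.b 2 - s.b 1) / 2 := by simp [stC]
  rw [ha, hb, ha1]
  linarith

/-! ### positivity of linear functionals on the cone -/

theorem Lc_sq (s : St) (N : ℕ) (h : 0 < QQ s N) : Lc s N ^ 2 < cc s N ^ 2 := by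
  have h1 := cert_F (s.a 0) (s.b 1) (s.a 1) (s.b 2) (s.a 2)
  have h2 := L_err s N
  have h3 := E3_nonneg s.a N
  have h4 := E3_nonneg s.b N
  have h5 := EX_split s.a N
  have h6 := EX_split s.b N
  have h7 := EX_nonneg s.g N
  have h8 := sq_nonneg (GG s N)
  unfold QQ at h
  set r := Lr (s.a 0) (s.b 1) (s.a 1) (s.b 2) (s.a 2)
  set l := Lc s N
  have h9 : l ^ 2 ≤ 251 / 250 * r ^ 2 + 251 * (l - r) ^ 2 := by
    nlinarith [sq_nonneg (r / 250 - (l - r))]
  linarith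

theorem Lc8_sq (s : St) (N : ℕ) (h : 0 < QQ s N) : (Lc s N + s.a 0 / 8) ^ 2 < cc s N ^ 2 := by
  have h1 := cert_T (s.a 0) (s.b 1) (s.a 1) (s.b 2) (s.a 2)
  have h2 := L_err s N
  have h3 := E3_nonneg s.a N
  have h4 := E3_nonneg s.b N
  have h5 := EX_split s.a N
  have h6 := EX_split s.b N
  have h7 := EX_nonneg s.g N
  have h8 := sq_nonneg (GG s N)
  unfold QQ at h
  set r := Lr (s.a 0) (s.b 1) (s.a 1) (s.b 2) (s.a 2)
  set l := Lc s N
  have h9 : (l + s.a 0 / 8) ^ 2 ≤ 251 / 250 * (r + s.a 0 / 8) ^ 2 + 251 * (l - r) ^ 2 := by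
    nlinarith [sq_nonneg ((r + s.a 0 / 8) / 250 - (l - r))]
  linarith

/-! ### the turn step -/

theorem neg_one_pow_sq (j : ℕ) : ((-1 : ℝ) ^ j) ^ 2 = 1 := by
  rw [← pow_mul, mul_comm, pow_mul]; simp

theorem E3_T_a (s : St) (N : ℕ) (h : Supp s (N + 2)) :
    E3 (stT s).a N ≤ E3 s.g N - s.g 3 ^ 2 / 2 := by
  have h1 := sq_avg (fun j => s.g (j + 3)) N
  have h2 : s.g (N + 3) = 0 := (h _ (by omega)).2.2
  simp only [h2, zero_add] at h1
  have h3 : E3 (stT s).a N = ∑ j ∈ range N, ((s.g (j + 3) + s.g (j + 1 + 3)) / 2) ^ 2 := by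
    unfold E3
    refine Finset.sum_congr rfl fun j _ => ?_
    simp only [stT]
    rw [if_neg (by omega)]
    have e : (-(-1) ^ (j + 3) * (s.g (j + 3) + s.g (j + 3 + 1)) / 2) ^ 2 =
      ((-1 : ℝ) ^ (j + 3)) ^ 2 * ((s.g (j + 3) + s.g (j + 1 + 3)) / 2) ^ 2 := by ring_nf
    rw [e, neg_one_pow_sq, one_mul]
  rw [h3]
  unfold E3
  linarith

theorem E3_T_b (s : St) (N : ℕ) (h : Supp s (N + 2)) :
    E3 (stT s).b N ≤ E3 s.a N + s.a 2 ^ 2 / 2 := by
  have h1 := sq_avg (fun j => s.a (j + 2)) N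
  have h2 : s.a (N + 2) = 0 := (h _ (by omega)).1
  simp only [h2, zero_add] at h1
  have h3 : E3 (stT s).b N = ∑ j ∈ range N, ((s.a (j + 2) + s.a (j + 1 + 2)) / 2) ^ 2 := by
    unfold E3
    refine Finset.sum_congr rfl fun j _ => ?_
    simp only [stT]
    rw [if_neg (by omega), if_neg (by omega)]
    have e : (-(-1) ^ (j + 3) * (s.a (j + 3) + s.a (j + 3 - 1)) / 2 - 0) ^ 2 =
      ((-1 : ℝ) ^ (j + 3)) ^ 2 * ((s.a (j + 3 - 1) + s.a (j + 3)) / 2) ^ 2 := by ring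
    rw [e, neg_one_pow_sq, one_mul]
    rfl
  rw [h3]
  have h4 : EX s.a N = ∑ j ∈ range N, s.a (j + 2) ^ 2 := by
    unfold EX
    rw [Finset.sum_range_succ, h2]; simp
  have h5 := EX_split s.a N
  linarith

theorem EX_T_g (s : St) (N : ℕ) : EX (stT s).g N = EX s.b N := by
  unfold EX
  refine Finset.sum_congr rfl fun j _ => ?_
  simp only [stT]
  rw [if_neg (by omega), if_neg (by omega), add_zero]

theorem E3_ge (x : ℕ → ℝ) (N : ℕ) (hN : 1 ≤ N) : x 3 ^ 2 ≤ E3 x N := by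
  unfold E3
  have := Finset.single_le_sum (s := range N) (f := fun j => x (j + 3) ^ 2)
    (fun i _ => sq_nonneg _) (Finset.mem_range.mpr (show 0 < N by omega))
  simpa using this

theorem T_arith (P1 P2 P3 P4 R1 R2 R3 R4 T1 T2 T3 T4 A B A' B' G w w' xa0 xb1 xa1 xb2 xa2
    ya0 yb1 ya1 yb2 ya2 xg2 xg3 : ℝ)
    (u1 : P1 ≤ 251 / 250 * R1 + 251 * T1) (u2 : 249 / 250 * R2 - 249 * T2 ≤ P2)
    (u3 : 249 / 250 * R3 - 249 * T3 ≤ P3) (u4 : P4 ≤ 251 / 250 * R4 + 251 * T4)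
    (e1 : T1 ≤ 0.00027 * (A + B) + 0.000002 * (xa0 + xb1 + xa1 + xb2 + xa2))
    (e2 : T2 ≤ 0.00001 * (A + B) + 0.000002 * (xa0 + xb1 + xa1 + xb2 + xa2))
    (e3 : T3 ≤ 0.00027 * (A' + B') + 0.000002 * (ya0 + yb1 + ya1 + yb2 + ya2))
    (e4 : T4 ≤ 0.00001 * (A' + B') + 0.000002 * (ya0 + yb1 + ya1 + yb2 + ya2))
    (hA' : A' ≤ G - xg3 / 2) (hB' : B' ≤ A + xa2 / 2) (hg3 : xg3 ≤ G)
    (hA : 0 ≤ A) (hB : 0 ≤ B)
    (key : 0 ≤ 249 / 250 * R3 - 251 / 125 * R1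
      - w' + 2 * w - 251 / 250 * R4 + 249 / 125 * R2
      - 6 / 5 * (yb2 + ya2) + 12 / 5 * (xb2 + xa2) - 4 / 5 * xb2
      + 8 / 5 * (xg2 + xg3) - 63487 / 100000 * (xg3 + xa2)
      - 1 / 500 * (xa0 + xb1 + xa1 + xb2 + xa2)
      - 1 / 1000 * (ya0 + yb1 + ya1 + yb2 + ya2)) :
    2 * (P1 - w - 6 / 5 * (xa2 + A + (xb2 + B)) - P2 - 4 / 5 * (xg2 + G)) ≤
      P3 - w' - 6 / 5 * (ya2 + A' + (yb2 + B')) - P4 - 4 / 5 * (xb2 + B) := by
  linarith

theorem up_sq (x e : ℝ) : (x + e) ^ 2 ≤ 251 / 250 * x ^ 2 + 251 * e ^ 2 := by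
  nlinarith [sq_nonneg (x - 250 * e)]
theorem lo_sq (x e : ℝ) : 249 / 250 * x ^ 2 - 249 * e ^ 2 ≤ (x + e) ^ 2 := by
  nlinarith [sq_nonneg (x + 250 * e)]

theorem up_sq' (x y z : ℝ) : (x + z) ^ 2 ≤ 251 / 250 * (x + y) ^ 2 + 251 * (z - y) ^ 2 := by
  have := up_sq (x + y) (z - y)
  have e : x + y + (z - y) = x + z := by ring
  rwa [e] at this
theorem lo_sq' (x y z : ℝ) : 249 / 250 * (x + y) ^ 2 - 249 * (z - y) ^ 2 ≤ (x + z) ^ 2 := by
  have := lo_sq (x + y) (z - y)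
  have e : x + y + (z - y) = x + z := by ring
  rwa [e] at this

theorem QQ_T (s : St) (N : ℕ) (hN : 1 ≤ N) (h : Supp s (N + 2)) :
    2 * QQ s N ≤ QQ (stT s) N := by
  have hF : (stT s).F = 2 * s.F - s.a 0 / 4 := rfl
  have ha0 : (stT s).a 0 = 4 * s.F - s.a 0 - s.g 1 := by simp [stT]
  have ha1 : (stT s).a 1 = (s.g 1 + s.g 2) / 2 := by simp [stT]
  have ha2 : (stT s).a 2 = -(s.g 2 + s.g 3) / 2 := by simp [stT]
  have hb1 : (stT s).b 1 = (s.a 1 + s.a 0) / 2 - 2 * s.F := by simp [stT]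
  have hb2 : (stT s).b 2 = -(s.a 2 + s.a 1) / 2 := by simp [stT]
  have hg1 : (stT s).g 1 = 2 * s.F + s.b 1 := by simp [stT]; ring
  have key := cert_main s.F (s.a 0) (s.a 1) (s.a 2) (s.b 1) (s.b 2) (s.g 1) (s.g 2) (s.g 3)
    (stT s).F ((stT s).a 0) ((stT s).a 1) ((stT s).a 2) ((stT s).b 1) ((stT s).b 2) _ _ _ _
    hF ha0 ha1 ha2 hb1 hb2 rfl rfl rfl rfl
  have hGp : GG (stT s) N = 2 * s.F + s.b 1 - (stT s).F + Zc (stT s) N := by
    unfold GG; rw [hg1]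
  have h1 : QQ s N = (s.F + Lc s N) ^ 2 - Wf (s.a 0) (s.b 1) (s.a 1)
      - 6 / 5 * (s.a 2 ^ 2 + E3 s.a N + (s.b 2 ^ 2 + E3 s.b N))
      - (s.g 1 - s.F + Zc s N) ^ 2 - 4 / 5 * (s.g 2 ^ 2 + E3 s.g N) := by
    unfold QQ; rw [EX_split, EX_split, EX_split]; rfl
  have h2 : QQ (stT s) N = ((stT s).F + Lc (stT s) N) ^ 2
      - Wf ((stT s).a 0) ((stT s).b 1) ((stT s).a 1)
      - 6 / 5 * ((stT s).a 2 ^ 2 + E3 (stT s).a N + ((stT s).b 2 ^ 2 + E3 (stT s).b N))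
      - (2 * s.F + s.b 1 - (stT s).F + Zc (stT s) N) ^ 2
      - 4 / 5 * (s.b 2 ^ 2 + E3 s.b N) := by
    unfold QQ; rw [EX_T_g, EX_split, EX_split, EX_split, hGp]; rfl
  rw [h1, h2]
  exact T_arith _ _ _ _ _ _ _ _ _ _ _ _ _ _ _ _ _ _ _ _ _ _ _ _ _ _ _ _ _ _ _
    (up_sq' _ _ _) (lo_sq' _ _ _) (lo_sq' _ _ _) (up_sq' _ _ _)
    (L_err s N) (Z_err s N) (L_err (stT s) N) (Z_err (stT s) N)
    (E3_T_a s N h) (E3_T_b s N h) (E3_ge s.g N hN) (E3_nonneg s.a N) (E3_nonneg s.b N) key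

/-! ### support -/

theorem Supp_C (s : St) (M : ℕ) (hM : 2 ≤ M) (h : Supp s M) : Supp (stC s) (M + 1) := by
  intro j hj
  refine ⟨?_, ?_, ?_⟩
  · simp only [stC]
    rw [if_neg (by omega), (h j (by omega)).2.1, (h (j + 1) (by omega)).2.1]; simp
  · simp only [stC]
    rw [if_neg (by omega), (h j (by omega)).1, (h (j - 1) (by omega)).1]; simp
  · simp only [stC]
    rw [if_neg (by omega), if_neg (by omega), (h j (by omega)).2.2]; simp

theorem Supp_T (s : St) (M : ℕ) (hM : 2 ≤ M) (h : Supp s M) : Supp (stT s) (M + 1) := by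
  intro j hj
  refine ⟨?_, ?_, ?_⟩
  · simp only [stT]
    rw [if_neg (by omega), (h j (by omega)).2.2, (h (j + 1) (by omega)).2.2]; simp
  · simp only [stT]
    rw [if_neg (by omega), if_neg (by omega), (h j (by omega)).1, (h (j - 1) (by omega)).1]; simp
  · simp only [stT]
    rw [if_neg (by omega), if_neg (by omega), (h j (by omega)).2.1]; simp

theorem Supp_mono (s : St) {M M' : ℕ} (hM : M ≤ M') (h : Supp s M) : Supp s M' :=
  fun j hj => h j (by omega)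

theorem Supp_st0 : Supp st0 3 := by
  intro j hj
  refine ⟨?_, ?_, ?_⟩
  · simp only [st0]; rw [if_neg (by omega), if_neg (by omega)]
  · simp only [st0]; rw [if_neg (by omega), if_neg (by omega)]
  · simp only [st0]; rw [if_neg (by omega), if_neg (by omega)]

theorem Supp_run (l : List Bool) : Supp (run l) (l.length + 3) := by
  induction l with
  | nil => exact Supp_st0
  | cons x l ih =>
    cases x
    · exact Supp_mono _ (by simp) (Supp_C _ _ (by omega) ih)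
    · exact Supp_mono _ (by simp) (Supp_T _ _ (by omega) ih)

/-! ### the invariant cone -/

/-- the cone -/
def InCone (s : St) (N : ℕ) : Prop := 0 < QQ s N ∧ 0 < cc s N

theorem F_pos (s : St) (N : ℕ) (h : InCone s N) : 0 < s.F := by
  have h1 := Lc_sq s N h.1
  have h2 : Lc s N < cc s N := lt_of_pow_lt_pow_left₀ 2 h.2.le h1
  unfold cc at h2
  linarith

theorem InCone_C (s : St) (N : ℕ) (hs : Supp s (N + 2)) (h : InCone s N) : InCone (stC s) N :=
  ⟨lt_of_lt_of_le h.1 (QQ_C s N hs), by rw [cc_C s N hs]; exact h.2⟩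

theorem InCone_T (s : St) (N : ℕ) (hN : 1 ≤ N) (hs : Supp s (N + 2)) (h : InCone s N) :
    InCone (stT s) N := by
  have h1 : 0 < QQ (stT s) N := lt_of_lt_of_le (by linarith [h.1]) (QQ_T s N hN hs)
  refine ⟨h1, ?_⟩
  have h2 := Lc8_sq s N h.1
  have h3 : Lc s N + s.a 0 / 8 < cc s N := lt_of_pow_lt_pow_left₀ 2 h.2.le h2
  have h4 : 0 < (stT s).F := by
    have : (stT s).F = 2 * s.F - s.a 0 / 4 := rfl
    rw [this]
    unfold cc at h3
    linarith
  have h5 := Lc_sq (stT s) N h1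
  by_contra h6
  push Not at h6
  have h7 : cc (stT s) N = (stT s).F + Lc (stT s) N := rfl
  nlinarith

theorem SX_st0_a (N : ℕ) : SX st0.a N = 2 := by
  unfold SX
  rw [Finset.sum_range_succ']
  have : ∀ j ∈ range (N + 1), qq ^ (j + 1) * st0.a (j + 1 + 1) = 0 := fun j _ => by
    simp [st0]
  rw [Finset.sum_eq_zero this]
  simp [st0]

theorem SX_st0_b (N : ℕ) : SX st0.b N = -13 / 2 - qq / 2 := by
  unfold SX
  rw [Finset.sum_range_succ', Finset.sum_range_succ']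
  have : ∀ j ∈ range N, qq ^ (j + 1 + 1) * st0.b (j + 1 + 1 + 1) = 0 := fun j _ => by
    simp [st0]
  rw [Finset.sum_eq_zero this]
  simp [st0]
  ring

theorem EX_st0 (N : ℕ) : EX st0.a N = 0 ∧ EX st0.b N = 1 / 4 ∧ EX st0.g N = 1 / 4 := by
  refine ⟨?_, ?_, ?_⟩
  · refine Finset.sum_eq_zero fun j _ => ?_
    simp [st0]
  · unfold EX
    rw [Finset.sum_range_succ']
    have : ∀ j ∈ range N, st0.b (j + 1 + 2) ^ 2 = 0 := fun j _ => by simp [st0]
    rw [Finset.sum_eq_zero this]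
    simp [st0]; norm_num
  · unfold EX
    rw [Finset.sum_range_succ']
    have : ∀ j ∈ range N, st0.g (j + 1 + 2) ^ 2 = 0 := fun j _ => by simp [st0]
    rw [Finset.sum_eq_zero this]
    simp [st0]; norm_num

theorem InCone_st0 (N : ℕ) : InCone st0 N := by
  have hc : cc st0 N = 14.5 + 6 * tau := by
    unfold cc Lc
    rw [SX_st0_a, SX_st0_b, qq_eq]
    simp [st0]
    ring
  have hG : GG st0 N = 0 := by
    unfold GG Zc
    rw [SX_st0_a, SX_st0_b, qq_eq]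
    simp [st0]
    linear_combination (-1 : ℝ) * tau_sq
  obtain ⟨h1, h2, h3⟩ := EX_st0 N
  refine ⟨?_, ?_⟩
  · unfold QQ
    rw [hc, hG, h1, h2, h3]
    simp [st0, Wf]
    nlinarith [tau_lo]
  · rw [hc]; linarith [tau_lo]

theorem InCone_run (N : ℕ) (l : List Bool) (h : l.length + 1 ≤ N) : InCone (run l) N := by
  induction l with
  | nil => exact InCone_st0 N
  | cons x l ih =>
    have hl : l.length + 2 ≤ N := by simp at h; omega
    have hs : Supp (run l) (N + 2) := Supp_mono _ (by omega) (Supp_run l)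
    cases x
    · exact InCone_C _ _ hs (ih (by omega))
    · exact InCone_T _ _ (by omega) hs (ih (by omega))

theorem run_pos (l : List Bool) : 0 < (run l).F :=
  F_pos _ _ (InCone_run (l.length + 1) l le_rfl)

end

end H16Col
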